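import Pool.Agent.Mg.Ff259ea.G06b7c0
import Pool.Agent.Mg.Ff259ea.G3f0772
import Pool.Agent.Mg.Ff259ea.Ga1e4d8

set_option autoImplicit false

namespace Pool.Agent.Results.MP_f259ea_nt.DistinctZeros

/-- For every primitive Dirichlet character and all large `T`, the number of distinct zeros of
`L(s, χ)` in the critical strip with imaginary part in `(T, 2T]` is at least `0.8396` times the
number of zeros counted with multiplicity. -/
theorem result :
    ∀ (N : ℕ) [NeZero N] (χ : DirichletCharacter ℂ N), χ.IsPrimitive →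
      ∃ T₀ : ℝ, ∀ T : ℝ, T₀ ≤ T →
        (8396 / 10000 : ℝ) * (∑ᶠ ρ ∈ {s : ℂ | 0 < s.re ∧ s.re < 1 ∧ T < s.im ∧ s.im ≤ 2 * T ∧
              DirichletCharacter.LFunction χ s = 0},
            ((analyticOrderAt (DirichletCharacter.LFunction χ) ρ).toNat : ℝ))
          ≤ ({s : ℂ | 0 < s.re ∧ s.re < 1 ∧ T < s.im ∧ s.im ≤ 2 * T ∧
              DirichletCharacter.LFunction χ s = 0}.ncard : ℝ) :=
  Pool.Agent.MP_f259ea_nt.target_of Pool.Agent.MP_f259ea_nt.stmtA
    Pool.Agent.MP_f259ea_nt.stmtBMain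

end Pool.Agent.Results.MP_f259ea_nt.DistinctZeros
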