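import Pool.Agent.Mg.Ff259ea.Gb6fbcd

set_option autoImplicit false

namespace Pool.Agent.Results.MP_f259ea_nt.FamilySimple

/-- Summed over all primitive Dirichlet characters of modulus at most `Q`, at least `93.22 %` of
the zeros of `L(s, χ)` with imaginary part in `(T, 2T]` are simple and lie on the critical line,
uniformly for `log Q ≤ T ≤ Q ^ θ`. -/
theorem result :
    ∃ θ : ℝ, 0 < θ ∧ ∃ Q₀ : ℕ, ∀ Q : ℕ, Q₀ ≤ Q → ∀ T : ℝ, Real.log Q ≤ T → T ≤ (Q : ℝ) ^ θ →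
      (9322 / 10000 : ℝ) * ∑ q ∈ Finset.range Q,
          ∑ᶠ χ ∈ {χ : DirichletCharacter ℂ (q + 1) | χ.IsPrimitive},
            ∑ᶠ ρ ∈ {s : ℂ | 0 < s.re ∧ s.re < 1 ∧ T < s.im ∧ s.im ≤ 2 * T ∧
                DirichletCharacter.LFunction χ s = 0},
              ((analyticOrderAt (DirichletCharacter.LFunction χ) ρ).toNat : ℝ)
        ≤ ∑ q ∈ Finset.range Q, ∑ᶠ χ ∈ {χ : DirichletCharacter ℂ (q + 1) | χ.IsPrimitive},
            ({s : ℂ | s.re = 1 / 2 ∧ T < s.im ∧ s.im ≤ 2 * T ∧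
              analyticOrderAt (DirichletCharacter.LFunction χ) s = 1}.ncard : ℝ) :=
  Pool.Agent.MP_f259ea_nt.Q.simple_of Pool.Agent.MP_f259ea_nt.Q.diag
    Pool.Agent.MP_f259ea_nt.Q.d1_good rfl (by norm_num) Pool.Agent.MP_f259ea_nt.Q.d1_J2

end Pool.Agent.Results.MP_f259ea_nt.FamilySimple
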