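import Pool.Agent.Mg.Ff259eaa.Ge24e07

/-! Simple zeros of Dirichlet L-functions over a rational function field with fixed constant
field, for almost all prime moduli of large degree and all characters of large order. -/

namespace Pool.Agent.Results.MP_f259ea_nt.FunctionFieldSimple

open Polynomial

/-- The sum of the character over the monic polynomials of degree `j`. -/
noncomputable def coef {F : Type} [Field F] {Q : F[X]} (χ : MulChar (AdjoinRoot Q) ℂ) (j : ℕ) :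
    ℂ :=
  ∑ᶠ f ∈ {f : F[X] | f.Monic ∧ f.natDegree = j}, χ (AdjoinRoot.mk Q f)

/-- The L-function, the Dirichlet series over monic polynomials grouped by degree. -/
noncomputable def Lfun {F : Type} [Field F] [Fintype F] {Q : F[X]}
    (χ : MulChar (AdjoinRoot Q) ℂ) (s : ℂ) : ℂ :=
  ∑' j : ℕ, coef χ j * (Fintype.card F : ℂ) ^ (-((j : ℂ) * s))

/-- The character is non-trivial and all zeros of its L-function are simple. -/
def Simple {F : Type} [Field F] [Fintype F] {Q : F[X]} (χ : MulChar (AdjoinRoot Q) ℂ) : Prop :=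
  χ ≠ 1 ∧ ∀ s : ℂ, Lfun χ s = 0 → deriv (Lfun χ) s ≠ 0

open Pool.Agent.MP_f259ea_nt.FF in
theorem simple_of {F : Type} [Field F] [Fintype F] {Q : F[X]} (hQ : Q.Monic) (hi : Irreducible Q)
    {χ : MulChar (AdjoinRoot Q) ℂ} (h : χ ≠ 1 ∧ SimpleP χ) : Simple χ := by
  have := Fact.mk hi
  have := finite_adj hQ
  have := Fintype.ofFinite (AdjoinRoot Q)
  have hq := two_le_card (F := F)
  have hq0 : (Fintype.card F : ℂ) ≠ 0 := by simp
  have h1 : ∀ j, coef χ j = cf χ j := fun j => by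
    rw [coef, cf, ← finsum_mem_coe_finset]
    congr with f
    simp [mem_mon]
  have h2 : Lfun χ = fun s => (LP χ).eval ((Fintype.card F : ℂ) ^ (-s)) := funext fun s => by
    rw [Lfun, eval_LP, tsum_eq_sum (s := Finset.range Q.natDegree) fun j hj => by
      rw [h1, cf_eq_zero hQ h.1 (by simpa using hj), zero_mul]]
    refine Finset.sum_congr rfl fun j _ => ?_
    rw [h1, ← mul_neg, Complex.cpow_nat_mul]
  refine ⟨h.1, fun s hs => ?_⟩
  rw [h2] at hs ⊢
  have h3 := ((LP χ).hasDerivAt _).comp s ((hasDerivAt_neg' s).const_cpow (Or.inl hq0))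
  rw [show deriv (fun s => (LP χ).eval ((Fintype.card F : ℂ) ^ (-s))) s = _ from h3.deriv]
  refine mul_ne_zero (h.2 _ hs) (mul_ne_zero (mul_ne_zero ?_ ?_) (by simp))
  · simp
  · rw [← Complex.natCast_log, Complex.ofReal_ne_zero]
    exact (Real.log_pos (by exact_mod_cast hq)).ne'

theorem result (F : Type) [Field F] [Fintype F] (θ ε : ℝ) (h0 : 0 < θ) (h1 : θ ≤ 1)
    (hp : θ = 1 ∨ (Fintype.card F).Prime) (hε : 0 < ε) :
    ∃ d₀ : ℕ, ∀ d : ℕ, d₀ ≤ d → ∃ B : Finset F[X],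
      (B.card : ℝ) ≤ (Fintype.card F : ℝ) ^ ((1 - θ / 2 + ε) * (d : ℝ)) ∧
      ∀ Q : F[X], Q.Monic → Irreducible Q → Q.natDegree = d → Q ∉ B →
        (∀ χ : MulChar (AdjoinRoot Q) ℂ, ((Fintype.card F : ℝ) ^ d - 1) ^ θ ≤
          (orderOf χ : ℝ) * Real.exp ((d : ℝ) ^ (1 / 3 : ℝ)) → Simple χ) ∧
        (Nat.card {χ : MulChar (AdjoinRoot Q) ℂ // ¬ Simple χ} : ℝ) ≤
          ε * (Nat.card (MulChar (AdjoinRoot Q) ℂ) : ℝ) := by
  obtain ⟨d1, h2⟩ := Pool.Agent.MP_f259ea_nt.FF.simple_main h0 h1 hp hε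
  obtain ⟨d2, h3⟩ := Pool.Agent.MP_f259ea_nt.FF.few_low (F := F) h1 hε
  refine ⟨d1 + d2, fun d hd => ?_⟩
  obtain ⟨B, h4, h5⟩ := h2 d (by omega)
  refine ⟨B, h4, fun Q a1 a2 a3 a4 => ?_⟩
  have h6 := fun χ h => simple_of a1 a2 (h5 Q a1 a2 a3 a4 χ h)
  subst a3
  exact ⟨h6, h3 Q a1 a2 (by omega) _ h6⟩

end Pool.Agent.Results.MP_f259ea_nt.FunctionFieldSimple
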